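import Pool.Agent.helper24.CG.Spec2

/-!
# The biased clique game, row RES2
-/

set_option autoImplicit false

namespace Pool.Agent.helper24.CG

open Finset

theorem RES2 (h : MAI2_stmt) : RES2_stmt := by
  obtain ⟨C, hC, hk⟩ := h
  refine ⟨2 * C, fun b m hb hm => ?_⟩
  have hm1 : (1 : ℝ) ≤ (m : ℝ) := by exact_mod_cast hm
  have hm0 : (0 : ℝ) < (m : ℝ) := by linarith
  have hr1 : (1 : ℝ) ≤ (m : ℝ) ^ (1 / 9 : ℝ) := Real.one_le_rpow hm1 (by norm_num)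
  have hr0 : (0 : ℝ) < (m : ℝ) ^ (1 / 9 : ℝ) := by linarith
  have hk1 : 1 ≤ ⌊(m : ℝ) ^ (1 / 9 : ℝ)⌋₊ := Nat.le_floor (by simpa using hr1)
  set k : ℕ := ⌊(m : ℝ) ^ (1 / 9 : ℝ)⌋₊ with hkdef
  have hk2 : (k : ℝ) ≤ (m : ℝ) ^ (1 / 9 : ℝ) := Nat.floor_le hr0.le
  have hk3 : (m : ℝ) ^ (1 / 9 : ℝ) < (k : ℝ) + 1 := Nat.lt_floor_add_one _
  have hk4 : (1 : ℝ) ≤ (k : ℝ) := by exact_mod_cast hk1
  have hk0 : (0 : ℝ) < (k : ℝ) := by linarith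
  have hk9 : k ^ 9 ≤ m := by
    have h1 : (k : ℝ) ^ 9 ≤ ((m : ℝ) ^ (1 / 9 : ℝ)) ^ 9 := pow_le_pow_left₀ hk0.le hk2 9
    have h2 : ((m : ℝ) ^ (1 / 9 : ℝ)) ^ 9 = (m : ℝ) := by
      rw [← Real.rpow_natCast, ← Real.rpow_mul hm0.le]
      norm_num
    rw [h2] at h1
    exact_mod_cast h1
  obtain ⟨N₀, hN⟩ := hk b k m hb hk1 hk9
  refine ⟨N₀, fun N hNN => (hN N hNN).trans ?_⟩
  have hlog : 0 ≤ Real.log (N : ℝ) := Real.log_natCast_nonneg N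
  have hmax : 0 ≤ max (2 / (b : ℝ)) (1 / Real.log (1 + b)) := le_max_of_le_left (by positivity)
  have h4 : C / k ≤ 2 * C * (m : ℝ) ^ (-(1 / 9) : ℝ) := by
    rw [Real.rpow_neg hm0.le, ← div_eq_mul_inv, div_le_div_iff₀ hk0 hr0]
    nlinarith
  apply mul_le_mul_of_nonneg_right _ hlog
  apply mul_le_mul_of_nonneg_right _ hm0.le
  apply mul_le_mul_of_nonneg_right _ hmax
  linarith

end Pool.Agent.helper24.CG
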